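import Pool.Agent.U501.WG.Dec
import Pool.Agent.Helper189.FreeRep

/-!
# Words defining group laws on all free nilpotent groups

A reduced word `w(a, b)` for which `x * y = w(x, y)` is a group operation on every free nilpotent
group `F_n / γ_k(F_n)` (`n ≥ 2`, `k ≥ 1`) is `ab` or `ba`.

Proof. The operation has the neutral element `1`, since `w(1, 1) = 1`; by the residual nilpotence
of the free group, `w(a, 1) = a`, `w(1, b) = b`, `w(a, w(a⁻¹, b)) = b` and `w(w(a, b⁻¹), b) = a`
hold in the free group on `a, b`. Hence `a` and `w(a⁻¹, b)` generate this group, and so do `b` and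
`w(a, b⁻¹)`. If `a` and `u` generate the free group on `a, b` then `u = a ^ i * b ^ ±1 * a ^ j`
(the file `Dec`), and the two forms of `w` given by this leave only `ab` and `ba`.
-/

namespace Pool.Agent.Results.MP_c4ae4c_al.OnlyProducts

open FreeGroup

/-- The term `γ_k(F_n)` of the lower central series of the free group of rank `n`, numbered such
that `γ_1(F_n) = F_n` and `γ_{k+1}(F_n) = [γ_k(F_n), F_n]`. -/
abbrev gam (n k : ℕ) : Subgroup (FreeGroup (Fin n)) :=
  (⊤ : Subgroup (FreeGroup (Fin n))).lowerCentralSeries (k - 1)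

/-- The value `w(x, y)` of the word `w` in the letters `a = of 0`, `b = of 1`. -/
def wordOp (w : FreeGroup (Fin 2)) {G : Type} [Group G] (x y : G) : G :=
  FreeGroup.lift ![x, y] w

/-- `op` is a group operation on the set `G`: it is associative, and has a neutral element and
inverses. -/
def IsGroupOp {G : Type} (op : G → G → G) : Prop :=
  (∀ x y z, op (op x y) z = op x (op y z)) ∧
    ∃ e, (∀ x, op e x = x ∧ op x e = x) ∧ ∀ x, ∃ y, op x y = e ∧ op y x = e

/-- Property (N): the operation `x * y = w(x, y)` makes the set `F_n / γ_k(F_n)` a group for all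
`n ≥ 2` and `k ≥ 1`. -/
def PropertyN (w : FreeGroup (Fin 2)) : Prop :=
  ∀ n k : ℕ, 2 ≤ n → 1 ≤ k → IsGroupOp (fun x y : FreeGroup (Fin n) ⧸ gam n k => wordOp w x y)

open Pool.Agent.U501.WG

theorem wordOp_eq (w : FreeGroup (Fin 2)) {G : Type} [Group G] (x y : G) :
    wordOp w x y = wd w x y := rfl

/-- equality in the free group from equality in the quotients -/
theorem eq_of_forall {u v : F2}
    (h : ∀ k, (QuotientGroup.mk' (gam 2 (k + 1)) u) = QuotientGroup.mk' (gam 2 (k + 1)) v) :
    u = v := by
  have h1 : u⁻¹ * v = 1 := by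
    apply Pool.Agent.Helper189.FreeRep.lcs_bot
    intro k
    have := h k
    rw [QuotientGroup.mk'_eq_mk'] at this
    obtain ⟨z, hz, hz'⟩ := this
    rw [← hz']
    simpa [gam] using hz
  exact inv_mul_eq_one.mp h1

section

variable {G : Type} [Group G] {w : F2} (h : IsGroupOp (fun x y : G => wordOp w x y))

include h

theorem one_neutral (x : G) : wd w 1 x = x ∧ wd w x 1 = x := by
  obtain ⟨has, e, he, hinv⟩ := h
  have h11 : wd w (1 : G) 1 = 1 := by
    have : wd w (1 : G) 1 = (1 : F2 →* G) w := by
      unfold wd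
      congr 1
      apply FreeGroup.ext_hom
      intro i
      fin_cases i <;> simp
    rw [this]
    rfl
  have h1e : (1 : G) = e := by
    obtain ⟨y, hy, hy'⟩ := hinv 1
    have h2 := has y 1 1
    simp only [wordOp_eq] at *
    rw [h11, hy'] at h2
    rw [(he 1).1] at h2
    exact h2
  have := he x
  simp only [wordOp_eq] at this
  rw [← h1e] at this
  exact this

end

theorem wd_inv_of {w : F2} (ha : wd w (of 0 : F2) 1 = of 0) (hb : wd w 1 (of 1 : F2) = of 1)
    {G : Type} [Group G] (x : G) : wd w x x⁻¹ = 1 := by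
  have h1 : wd w (Multiplicative.ofAdd (1 : ℤ)) 1 = Multiplicative.ofAdd (1 : ℤ) := by
    have := congrArg (FreeGroup.lift (fun _ : Fin 2 => Multiplicative.ofAdd (1 : ℤ))) ha
    rw [map_wd, FreeGroup.lift_apply_of, _root_.map_one (FreeGroup.lift _)] at this
    exact this
  have h2 : wd w 1 (Multiplicative.ofAdd (-1 : ℤ)) = Multiplicative.ofAdd (-1 : ℤ) := by
    have := congrArg (FreeGroup.lift (fun _ : Fin 2 => Multiplicative.ofAdd (-1 : ℤ))) hb
    rw [map_wd, FreeGroup.lift_apply_of, _root_.map_one (FreeGroup.lift _)] at this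
    exact this
  have h3 : wd w (Multiplicative.ofAdd (1 : ℤ)) (Multiplicative.ofAdd (-1 : ℤ)) = 1 := by
    rw [wd_comm, h1, h2]
    rfl
  have h4 := congrArg (zpowersHom G x) h3
  rw [map_wd, _root_.map_one (zpowersHom G x), zpowersHom_apply, zpowersHom_apply, toAdd_ofAdd,
    toAdd_ofAdd, zpow_one, zpow_neg_one] at h4
  exact h4

theorem only_products {w : F2}
    (h : ∀ k, IsGroupOp (fun x y : FreeGroup (Fin 2) ⧸ gam 2 (k + 1) => wordOp w x y)) :
    w = of 0 * of 1 ∨ w = of 1 * of 0 := by
  have ha : wd w (of 0 : F2) 1 = of 0 := by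
    apply eq_of_forall
    intro k
    rw [map_wd, _root_.map_one]
    exact (one_neutral (h k) _).2
  have hb : wd w 1 (of 1 : F2) = of 1 := by
    apply eq_of_forall
    intro k
    rw [map_wd, _root_.map_one]
    exact (one_neutral (h k) _).1
  apply word_form ha hb
  · apply eq_of_forall
    intro k
    rw [map_wd, map_wd, _root_.map_inv]
    have := (h k).1 (QuotientGroup.mk' (gam 2 (k + 1)) (of 0))
      (QuotientGroup.mk' (gam 2 (k + 1)) (of 0))⁻¹ (QuotientGroup.mk' (gam 2 (k + 1)) (of 1))
    simp only [wordOp_eq] at this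
    rw [← this, wd_inv_of ha hb]
    exact (one_neutral (h k) _).1
  · apply eq_of_forall
    intro k
    rw [map_wd, map_wd, _root_.map_inv]
    have := (h k).1 (QuotientGroup.mk' (gam 2 (k + 1)) (of 0))
      (QuotientGroup.mk' (gam 2 (k + 1)) (of 1))⁻¹ (QuotientGroup.mk' (gam 2 (k + 1)) (of 1))
    simp only [wordOp_eq] at this
    rw [this]
    have h5 := wd_inv_of ha hb (QuotientGroup.mk' (gam 2 (k + 1)) (of 1))⁻¹
    rw [inv_inv] at h5
    rw [h5]
    exact (one_neutral (h k) _).2

/-- **The words with property (N) are exactly `ab` and `ba`.** -/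
theorem result (w : FreeGroup (Fin 2)) :
    PropertyN w ↔ w = of 0 * of 1 ∨ w = of 1 * of 0 := by
  constructor
  · intro h
    exact only_products (fun k => h 2 (k + 1) le_rfl (by omega))
  · rintro (rfl | rfl) n k - -
    · refine ⟨?_, 1, ?_, ?_⟩
      · intro x y z
        simp only [wordOp_eq, wd_of_mul, mul_assoc]
      · intro x
        simp only [wordOp_eq, wd_of_mul, one_mul, mul_one, and_self]
      · intro x
        refine ⟨x⁻¹, ?_⟩
        simp only [wordOp_eq, wd_of_mul, mul_inv_cancel, inv_mul_cancel, and_self]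
    · refine ⟨?_, 1, ?_, ?_⟩
      · intro x y z
        simp only [wordOp_eq, wd_of_mul', mul_assoc]
      · intro x
        simp only [wordOp_eq, wd_of_mul', one_mul, mul_one, and_self]
      · intro x
        refine ⟨x⁻¹, ?_⟩
        simp only [wordOp_eq, wd_of_mul', mul_inv_cancel, inv_mul_cancel, and_self]

end Pool.Agent.Results.MP_c4ae4c_al.OnlyProducts
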